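import Pool.Agent.H26.MQ.Defs

/-!
# The averages of `jj` and the mass of the density
-/

set_option autoImplicit false

open MeasureTheory Set Filter Topology

namespace Pool.Agent.H19.MQ

open Pool.Agent.H26.MQ Pool.Agent.H26.ML

lemma jp_cube {ξ : ℝ} (hξ : 0 ≤ ξ) :
    ∫ η in (0 : ℝ)..ξ, (max (1 - η) 0) ^ 2 = (1 - (max (1 - ξ) 0) ^ 3) / 3 := by
  have hA : ∀ b : ℝ, 0 ≤ b → b ≤ 1 →
      ∫ η in (0 : ℝ)..b, (max (1 - η) 0) ^ 2 = (1 - (max (1 - b) 0) ^ 3) / 3 := by
    intro b hb hb1
    have h1 : ∫ η in (0 : ℝ)..b, (max (1 - η) 0) ^ 2 = ∫ η in (0 : ℝ)..b, (1 - η) ^ 2 := by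
      refine intervalIntegral.integral_congr fun η hη => ?_
      rw [uIcc_of_le hb] at hη
      rw [max_eq_left (by linarith [hη.2])]
    rw [h1, intervalIntegral.integral_comp_sub_left (fun x => x ^ 2) 1, integral_pow,
      max_eq_left (by linarith)]
    norm_num
  rcases le_total ξ 1 with h | h
  · exact hA ξ hξ h
  · have hc : ∀ a b : ℝ, IntervalIntegrable (fun η : ℝ => (max (1 - η) 0) ^ 2) volume a b := by
      intro a b
      apply Continuous.intervalIntegrable
      fun_prop
    rw [← intervalIntegral.integral_add_adjacent_intervals (hc 0 1) (hc 1 ξ),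
      hA 1 zero_le_one le_rfl]
    have h1 : ∫ η in (1 : ℝ)..ξ, (max (1 - η) 0) ^ 2 = ∫ η in (1 : ℝ)..ξ, (0 : ℝ) := by
      refine intervalIntegral.integral_congr fun η hη => ?_
      rw [uIcc_of_le h] at hη
      rw [max_eq_right (by linarith [hη.1])]
      norm_num
    rw [h1, max_eq_right (by linarith : 1 - ξ ≤ 0)]
    norm_num

theorem pf_jp (hPB : T_PB) (hPS : T_PS) (hJD : T_JD) : T_JP := by
  obtain ⟨p0, -, -, -, pc, pint, print, -⟩ := hPB
  obtain ⟨j0, jb, jc, jlim, jf⟩ := hJD
  set M : ℝ := ∫ r in Ioi (0 : ℝ), pp r with hM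
  have pint' : IntegrableOn pp (Ioi 0) := pint.integrableOn
  -- the formula with M
  have key : ∀ ξ : ℝ, 0 < ξ → ∫ r in Ioi (0 : ℝ), pp r * jj (ξ * r) =
      Real.pi * M - Real.pi * (1 - (max (1 - ξ) 0) ^ 3) := by
    intro ξ hξ
    have hF : Integrable (Function.uncurry fun (r η : ℝ) => pp r * (Real.sin (η * r) / η))
        ((volume.restrict (Ioi (0 : ℝ))).prod (volume.restrict (Ioc (0 : ℝ) ξ))) := by
      have h1 : Integrable (fun z : ℝ × ℝ => z.1 * pp z.1)
          ((volume.restrict (Ioi (0 : ℝ))).prod (volume.restrict (Ioc (0 : ℝ) ξ))) :=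
        print.comp_fst _
      refine h1.mono' ?_ ?_
      · apply Measurable.aestronglyMeasurable
        apply Measurable.mul
        · exact pc.measurable.comp measurable_fst
        · exact (Real.measurable_sin.comp (measurable_snd.mul measurable_fst)).div measurable_snd
      · rw [Measure.prod_restrict]
        refine (ae_restrict_iff' (measurableSet_Ioi.prod measurableSet_Ioc)).2
          (Eventually.of_forall fun z hz => ?_)
        obtain ⟨hz1, hz2⟩ := hz
        have hr : 0 < z.1 := hz1
        have hη : 0 < z.2 := hz2.1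
        have h2 : |Real.sin (z.2 * z.1)| ≤ z.2 * z.1 := by
          have := Real.abs_sin_le_abs (x := z.2 * z.1)
          rwa [abs_of_pos (mul_pos hη hr)] at this
        simp only [Function.uncurry]
        rw [norm_mul, norm_div, Real.norm_eq_abs, Real.norm_eq_abs, Real.norm_eq_abs,
          abs_of_nonneg (p0 z.1 hr.le), abs_of_pos hη, mul_comm z.1]
        refine mul_le_mul_of_nonneg_left ?_ (p0 z.1 hr.le)
        rw [div_le_iff₀ hη]
        linarith
    have hswap := integral_integral_swap hF
    have h2 : ∀ η ∈ Ioc (0 : ℝ) ξ, (∫ r in Ioi (0 : ℝ), pp r * (Real.sin (η * r) / η)) =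
        3 * Real.pi / 2 * (max (1 - η) 0) ^ 2 := by
      intro η hη
      have h3 := hPS η hη.1.le
      have h4 : (∫ r in Ioi (0 : ℝ), pp r * (Real.sin (η * r) / η)) =
          (∫ r in Ioi (0 : ℝ), pp r * Real.sin (η * r)) / η := by
        rw [← integral_div]
        refine integral_congr_ae (Eventually.of_forall fun r => ?_)
        simp only
        ring
      rw [h4, h3]
      have := hη.1.ne'
      field_simp
    have h5 : (∫ η in Ioc (0 : ℝ) ξ, ∫ r in Ioi (0 : ℝ), pp r * (Real.sin (η * r) / η)) =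
        Real.pi / 2 * (1 - (max (1 - ξ) 0) ^ 3) := by
      rw [setIntegral_congr_fun measurableSet_Ioc h2, ← intervalIntegral.integral_of_le hξ.le,
        intervalIntegral.integral_const_mul, jp_cube hξ.le]
      ring
    have h6 : ∀ r ∈ Ioi (0 : ℝ), pp r * jj (ξ * r) =
        Real.pi * pp r - 2 * ∫ η in Ioc (0 : ℝ) ξ, pp r * (Real.sin (η * r) / η) := by
      intro r hr
      rw [jf ξ r hξ hr, intervalIntegral.integral_of_le hξ.le, integral_const_mul]
      ring
    have h7 : Integrable (fun r => ∫ η in Ioc (0 : ℝ) ξ, pp r * (Real.sin (η * r) / η))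
        (volume.restrict (Ioi (0 : ℝ))) := hF.integral_prod_left
    rw [setIntegral_congr_fun measurableSet_Ioi h6, integral_sub (pint'.const_mul _)
      (h7.const_mul 2), integral_const_mul, integral_const_mul, hswap, h5]
    ring
  -- the limit
  have hlim : Tendsto (fun ξ : ℝ => ∫ r in Ioi (0 : ℝ), pp r * jj (ξ * r)) atTop (𝓝 0) := by
    have h1 : Tendsto (fun ξ : ℝ => ∫ r in Ioi (0 : ℝ), pp r * jj (ξ * r)) atTop
        (𝓝 (∫ r in Ioi (0 : ℝ), (0 : ℝ))) := by
      refine tendsto_integral_filter_of_dominated_convergence (fun r => Real.pi * pp r) ?_ ?_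
        (pint'.const_mul _) ?_
      · refine Eventually.of_forall fun ξ => ?_
        exact (pc.mul (jc.comp (continuous_const.mul continuous_id))).aestronglyMeasurable
      · filter_upwards [eventually_ge_atTop 0] with ξ hξ
        refine (ae_restrict_iff' measurableSet_Ioi).2 (Eventually.of_forall fun r hr => ?_)
        have hr0 : 0 ≤ r := le_of_lt hr
        rw [norm_mul, Real.norm_eq_abs, Real.norm_eq_abs, abs_of_nonneg (p0 r hr0), mul_comm]
        exact mul_le_mul_of_nonneg_right (jb _ (mul_nonneg hξ hr0)) (p0 r hr0)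
      · refine (ae_restrict_iff' measurableSet_Ioi).2 (Eventually.of_forall fun r hr => ?_)
        have h2 : Tendsto (fun ξ : ℝ => ξ * r) atTop atTop := tendsto_id.atTop_mul_const hr
        have h3 := (jlim.comp h2).const_mul (pp r)
        rw [mul_zero] at h3
        exact h3
    rwa [integral_zero] at h1
  have hM1 : M = 1 := by
    have h1 : Tendsto (fun ξ : ℝ => ∫ r in Ioi (0 : ℝ), pp r * jj (ξ * r)) atTop
        (𝓝 (Real.pi * M - Real.pi)) := by
      refine tendsto_const_nhds.congr' ?_
      filter_upwards [eventually_ge_atTop 1] with ξ hξ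
      rw [key ξ (by linarith), max_eq_right (by linarith : 1 - ξ ≤ 0)]
      ring
    have h2 := tendsto_nhds_unique h1 hlim
    have h3 := Real.pi_pos
    have h4 : Real.pi * (M - 1) = 0 := by linarith
    rcases mul_eq_zero.1 h4 with h5 | h5
    · exact absurd h5 h3.ne'
    · linarith
  refine ⟨hM1, fun ξ hξ => ?_⟩
  rcases hξ.eq_or_lt with rfl | hξ
  · simp only [zero_mul, j0, sub_zero]
    rw [integral_mul_const, ← hM, hM1, max_eq_left zero_le_one]
    ring
  · rw [key ξ hξ, hM1]
    ring

end Pool.Agent.H19.MQ
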